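import Pool.Agent.Run7.h135.XK.Stm
import Pool.Agent.Y655.XT.Shavc

/-!
# Piece ISO of project XK (helper135), by helper834: the two equations of `X_0(15)`

Change of variables `x = 4 x' + 13`, `y = 8 y' + 4 x' + 4`.
-/

set_option autoImplicit false
set_option linter.all false

open WeierstrassCurve

namespace Run7.h834.XK

open Run7.h135.XK
open Pool.Agent.TH841.NF.D (Sha)
open Pool.Agent.Y700 (VR)

theorem vr15 (K : Type) [Field K] [CharZero K] :
    VR (E0 K) (⟨1, 1, 1, -10, -10⟩ : WeierstrassCurve K) 2 13 1 4 where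
  u0 := two_ne_zero
  e1 := by change (2 : K) * 1 = 0 + 2 * 1; norm_num
  e2 := by change (2 : K) ^ 2 * 1 = -34 - 1 * 0 + 3 * 13 - 1 ^ 2; norm_num
  e3 := by change (2 : K) ^ 3 * 1 = 0 + 13 * 0 + 2 * 4; norm_num
  e4 := by
    change (2 : K) ^ 4 * (-10) = 225 - 1 * 0 + 2 * 13 * (-34) - (4 + 13 * 1) * 0 + 3 * 13 ^ 2 -
      2 * 1 * 4
    norm_num
  e6 := by
    change (2 : K) ^ 6 * (-10) = 0 + 13 * 225 + 13 ^ 2 * (-34) + 13 ^ 3 - 4 * 0 - 4 ^ 2 - 13 * 4 * 0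
    norm_num

theorem delta15 (K : Type) [Field K] [CharZero K] :
    (⟨1, 1, 1, -10, -10⟩ : WeierstrassCurve K).Δ ≠ 0 := by
  have h : (⟨1, 1, 1, -10, -10⟩ : WeierstrassCurve K).Δ = 50625 := by
    simp only [WeierstrassCurve.Δ, WeierstrassCurve.b₂, WeierstrassCurve.b₄, WeierstrassCurve.b₆,
      WeierstrassCurve.b₈]
    norm_num
  rw [h]
  norm_num

theorem t_ISO : S_ISO := by
  intro K _ _
  classical
  refine ⟨⟨(Pool.Agent.Y655.XT.isoVR (vr15 K) (delta15 K)).sha⟩, ?_⟩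
  exact Nat.card_congr ((vr15 K).equiv (delta15 K)).toEquiv

end Run7.h834.XK
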